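import Pool.Agent.Helper1.SPX.Base

/-! SPX, part BND. -/

set_option autoImplicit false
set_option linter.unusedSectionVars false

open MeasureTheory Filter Topology Set
open scoped InnerProductSpace ENNReal

namespace Pool.Agent.Helper1.SPX.BND

open Pool.Agent.Helper64.SPX Pool.Agent.Helper1.SPX

variable {ι κ : Type} [Fintype ι] [Fintype κ]

lemma bdd_ind {A : Set (E ι)} (hA : IsCompact A) : Bdd (ind A) := by
  refine ⟨?_, ⟨1, fun x => ?_⟩, ?_⟩
  · unfold ind
    exact measurable_const.indicator hA.measurableSet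
  · unfold ind
    by_cases h : x ∈ A
    · simp [h]
    · simp [h]
  · obtain ⟨r, hr⟩ := hA.isBounded.subset_closedBall (0 : E ι)
    refine ⟨r + 1, fun x hx => ?_⟩
    unfold ind
    rw [Set.indicator_of_notMem]
    intro h
    have := hr h
    rw [mem_closedBall_zero_iff] at this
    linarith

lemma bdd_mul {f : E ι → ℂ} {g : E κ → ℂ} (hf : Bdd f) (hg : Bdd g) :
    Bdd fun z : E (ι ⊕ κ) => f (fst z) * g (snd z) := by
  obtain ⟨hf1, ⟨C, hC⟩, r, hr⟩ := hf
  obtain ⟨hg1, ⟨C', hC'⟩, r', hr'⟩ := hg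
  refine ⟨(hf1.comp measurable_fst).mul (hg1.comp measurable_snd), ⟨|C| * |C'|, fun z => ?_⟩,
    |r| + |r'|, fun z hz => ?_⟩
  · rw [norm_mul]
    exact mul_le_mul ((hC _).trans (le_abs_self _)) ((hC' _).trans (le_abs_self _))
      (norm_nonneg _) (abs_nonneg _)
  · show f (fst z) * g (snd z) = 0
    by_cases h1 : r ≤ ‖fst z‖
    · rw [hr _ h1, zero_mul]
    · by_cases h2 : r' ≤ ‖snd z‖
      · rw [hr' _ h2, mul_zero]
      · exfalso
        have h3 := norm_le_split z
        have h4 := le_abs_self r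
        have h5 := le_abs_self r'
        linarith

lemma ft_split (hS : S_SPLIT) (f : E ι → ℂ) (g : E κ → ℂ) (w : E (ι ⊕ κ)) :
    ft (fun z : E (ι ⊕ κ) => f (fst z) * g (snd z)) w = ft f (fst w) * ft g (snd w) := by
  unfold ft
  rw [← integral_split hS (fun x => f x * ee (-⟪fst w, x⟫_ℝ)) (fun y => g y * ee (-⟪snd w, y⟫_ℝ))]
  congr 1
  funext z
  rw [inner_split, neg_add, ee_add]
  ring

lemma ft_ind_zero {A : Set (E ι)} (hA : MeasurableSet A) :
    ft (ind A) 0 = ((volume A).toReal : ℂ) := by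
  unfold ft ind
  simp only [inner_zero_left, neg_zero, ee_zero, mul_one]
  rw [integral_indicator hA]
  simp [Measure.real]

theorem main (hS : S_SPLIT) : S_BND := by
  intro ι κ _ _ A B Λ hA hA0 hB hBb hP F' hF hFs x y
  set H : E (ι ⊕ κ) → ℂ := fun z => ind A (fst z) * F' (snd z) with hH
  have hHb : Bdd H := bdd_mul (bdd_ind hA) hF
  have hHs : SuppIn H (prodSet A B) := by
    intro z hz
    show ind A (fst z) * F' (snd z) = 0
    by_cases h1 : fst z ∈ A
    · have h2 : snd z ∉ B := fun h => hz ⟨h1, h⟩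
      rw [hFs _ h2, mul_zero]
    · unfold ind
      rw [Set.indicator_of_notMem h1, zero_mul]
  have h := hP H hHb hHs (pair x y)
  set a0 : ℝ := (volume A).toReal with ha0
  have hAfin : volume A ≠ ⊤ := hA.measure_lt_top.ne
  have ha0pos : 0 < a0 := ENNReal.toReal_pos hA0.ne' hAfin
  have hvol : (volume (prodSet A B)).toReal = a0 * (volume B).toReal := by
    rw [volume_prodSet hS hA.measurableSet hB, ENNReal.toReal_mul]
  have hint : ∫ z, ‖H z‖ ^ 2 = a0 * ∫ y, ‖F' y‖ ^ 2 := by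
    have h1 := integral_split hS (ind A) (fun y => ((‖F' y‖ ^ 2 : ℝ) : ℂ))
    have h2 : ∀ z : E (ι ⊕ κ), ind A (fst z) * ((‖F' (snd z)‖ ^ 2 : ℝ) : ℂ) =
        ((‖H z‖ ^ 2 : ℝ) : ℂ) := by
      intro z
      show _ = ((‖ind A (fst z) * F' (snd z)‖ ^ 2 : ℝ) : ℂ)
      by_cases h : fst z ∈ A <;> simp [ind, h]
    simp only [h2] at h1
    rw [integral_complex_ofReal, integral_complex_ofReal] at h1
    have h3 : ∫ x, ind A x = (a0 : ℂ) := by
      unfold ind
      rw [integral_indicator hA.measurableSet]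
      simp [Measure.real, ha0]
    rw [h3] at h1
    exact_mod_cast h1
  rw [hvol, hint] at h
  -- the subfamily
  set S := {a : E (ι ⊕ κ) // a ∈ Λ ∧ fst a = x}
  let φ : S → Λ := fun a => ⟨a.1, a.2.1⟩
  have hφ : Function.Injective φ := by
    intro a b hab
    have : (φ a).1 = (φ b).1 := by rw [hab]
    exact Subtype.ext this
  have hval : ∀ a : S, ‖ft H (pair x y - ((φ a : Λ) : E (ι ⊕ κ)))‖ ^ 2 =
      a0 ^ 2 * ‖ft F' (y - snd a.1)‖ ^ 2 := by
    intro a
    have h1 : ft H (pair x y - a.1) = ft (ind A) (fst (pair x y - a.1)) *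
        ft F' (snd (pair x y - a.1)) := ft_split hS _ _ _
    have h2 : fst (pair x y - a.1) = 0 := by
      rw [fst_sub, fst_pair, a.2.2, sub_self]
    have h3 : snd (pair x y - a.1) = y - snd a.1 := by
      rw [snd_sub, snd_pair]
    rw [h2, h3, ft_ind_zero hA.measurableSet] at h1
    show ‖ft H (pair x y - a.1)‖ ^ 2 = _
    rw [h1, norm_mul, mul_pow, Complex.norm_real, Real.norm_of_nonneg ha0pos.le]
  have hsum : Summable fun a : S => a0 ^ 2 * ‖ft F' (y - snd a.1)‖ ^ 2 := by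
    have := h.summable.comp_injective hφ
    refine this.congr fun a => ?_
    exact hval a
  have hsum' : Summable fun a : S => ‖ft F' (y - snd a.1)‖ ^ 2 := by
    have := hsum.mul_left (a0 ^ 2)⁻¹
    refine this.congr fun a => ?_
    rw [← mul_assoc, inv_mul_cancel₀ (pow_pos ha0pos 2).ne', one_mul]
  refine ⟨hsum', ?_⟩
  have hle : ∑' a : S, a0 ^ 2 * ‖ft F' (y - snd a.1)‖ ^ 2 ≤
      a0 * (volume B).toReal * (a0 * ∫ y, ‖F' y‖ ^ 2) := by
    rw [← h.tsum_eq]
    have h1 : ∑' a : S, a0 ^ 2 * ‖ft F' (y - snd a.1)‖ ^ 2 =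
        ∑' a : S, (fun a : Λ => ‖ft H (pair x y - a)‖ ^ 2) (φ a) := by
      congr 1
      funext a
      exact (hval a).symm
    rw [h1]
    exact tsum_comp_le_tsum_of_inj h.summable (fun a => by positivity) hφ
  rw [tsum_mul_left] at hle
  have h4 : a0 ^ 2 * (∑' a : S, ‖ft F' (y - snd a.1)‖ ^ 2) ≤
      a0 ^ 2 * ((volume B).toReal * ∫ y, ‖F' y‖ ^ 2) := by
    calc _ ≤ _ := hle
      _ = _ := by ring
  exact le_of_mul_le_mul_left h4 (pow_pos ha0pos 2)

end Pool.Agent.Helper1.SPX.BND
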