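import Pool.Agent.Helper64.SPX.Spec

/-! SPX: product integrals. -/

set_option autoImplicit false
set_option linter.unusedSectionVars false

open MeasureTheory Filter Topology Set
open scoped InnerProductSpace ENNReal

namespace Pool.Agent.Helper1.SPX

open Pool.Agent.Helper64.SPX

variable {ι κ : Type} [Fintype ι] [Fintype κ]

lemma inner_split (w z : E (ι ⊕ κ)) : ⟪w, z⟫_ℝ = ⟪fst w, fst z⟫_ℝ + ⟪snd w, snd z⟫_ℝ := by
  simp only [PiLp.inner_apply, fst, snd, Fintype.sum_sum_type]

lemma fst_sub (w z : E (ι ⊕ κ)) : fst (w - z) = fst w - fst z := by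
  ext i; simp [fst]

lemma snd_sub (w z : E (ι ⊕ κ)) : snd (w - z) = snd w - snd z := by
  ext i; simp [snd]

lemma fst_neg (w : E (ι ⊕ κ)) : fst (-w) = -fst w := by
  ext i; simp [fst]

lemma snd_neg (w : E (ι ⊕ κ)) : snd (-w) = -snd w := by
  ext i; simp [snd]

lemma fst_add (w z : E (ι ⊕ κ)) : fst (w + z) = fst w + fst z := by
  ext i; simp [fst]

lemma snd_add (w z : E (ι ⊕ κ)) : snd (w + z) = snd w + snd z := by
  ext i; simp [snd]

lemma fst_pair (x : E ι) (y : E κ) : fst (pair x y) = x := by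
  ext i; simp [fst, pair]

lemma snd_pair (x : E ι) (y : E κ) : snd (pair x y) = y := by
  ext i; simp [snd, pair]

lemma pair_fst_snd (z : E (ι ⊕ κ)) : pair (fst z) (snd z) = z := by
  ext i
  rcases i with i | i <;> simp [fst, snd, pair]

lemma ee_add (a b : ℝ) : ee (a + b) = ee a * ee b := by
  unfold ee
  rw [← Complex.exp_add]
  congr 1
  push_cast
  ring

lemma ee_zero : ee 0 = 1 := by simp [ee]

lemma norm_ee (a : ℝ) : ‖ee a‖ = 1 := by
  unfold ee
  have : (2 * (Real.pi : ℂ) * (a : ℂ) * Complex.I) = ((2 * Real.pi * a : ℝ) : ℂ) * Complex.I := by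
    push_cast; ring
  rw [this]
  exact Complex.norm_exp_ofReal_mul_I _

lemma continuous_ee : Continuous ee := by
  unfold ee
  fun_prop

lemma ee_neg (a : ℝ) : ee (-a) = (starRingEnd ℂ) (ee a) := by
  unfold ee
  rw [← Complex.exp_conj]
  congr 1
  simp only [map_mul, Complex.conj_ofReal, Complex.conj_I, map_ofNat]
  push_cast
  ring

/-- integrals of products -/
lemma integral_split (hS : S_SPLIT) (f : E ι → ℂ) (g : E κ → ℂ) :
    ∫ z : E (ι ⊕ κ), f (fst z) * g (snd z) = (∫ x, f x) * ∫ y, g y := by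
  obtain ⟨e, he, he', hm⟩ := hS ι κ
  have h1 : (∫ z : E (ι ⊕ κ), f (fst z) * g (snd z)) =
      ∫ z : E (ι ⊕ κ), (fun p : E ι × E κ => f p.1 * g p.2) (e z) := by
    congr 1
    funext z
    rw [he]
  rw [h1, hm.integral_comp e.measurableEmbedding (fun p : E ι × E κ => f p.1 * g p.2)]
  rw [show (∫ y, (fun p : E ι × E κ => f p.1 * g p.2) y ∂((volume : Measure (E ι)).prod
    (volume : Measure (E κ)))) = ∫ p : E ι × E κ, f p.1 * g p.2
      ∂((volume : Measure (E ι)).prod (volume : Measure (E κ))) from rfl]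
  rw [integral_prod_mul]

lemma measurable_fst : Measurable (fst : E (ι ⊕ κ) → E ι) := by
  have : Continuous (fst : E (ι ⊕ κ) → E ι) := by
    unfold fst
    fun_prop
  exact this.measurable

lemma measurable_snd : Measurable (snd : E (ι ⊕ κ) → E κ) := by
  have : Continuous (snd : E (ι ⊕ κ) → E κ) := by
    unfold snd
    fun_prop
  exact this.measurable

lemma continuous_fst' : Continuous (fst : E (ι ⊕ κ) → E ι) := by
  unfold fst
  fun_prop

lemma continuous_snd' : Continuous (snd : E (ι ⊕ κ) → E κ) := by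
  unfold snd
  fun_prop

lemma norm_sq_split (z : E (ι ⊕ κ)) : ‖z‖ ^ 2 = ‖fst z‖ ^ 2 + ‖snd z‖ ^ 2 := by
  have h := inner_split z z
  simpa [real_inner_self_eq_norm_sq] using h

lemma norm_le_split (z : E (ι ⊕ κ)) : ‖z‖ ≤ ‖fst z‖ + ‖snd z‖ := by
  have h := norm_sq_split z
  nlinarith [norm_nonneg z, norm_nonneg (fst z), norm_nonneg (snd z)]

lemma volume_prodSet (hS : S_SPLIT) {A : Set (E ι)} {B : Set (E κ)} (hA : MeasurableSet A)
    (hB : MeasurableSet B) : volume (prodSet A B) = volume A * volume B := by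
  obtain ⟨e, he, he', hm⟩ := hS ι κ
  have h1 : prodSet A B = e ⁻¹' (A ×ˢ B) := by
    ext z
    simp [prodSet, he]
  rw [h1, hm.measure_preimage (hA.prod hB).nullMeasurableSet, Measure.prod_prod]

end Pool.Agent.Helper1.SPX
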