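import Pool.Agent.Helper1.SPX.Base

/-! SPX, part T1: the exact tiling identity. -/

set_option autoImplicit false
set_option linter.unusedSectionVars false

open MeasureTheory Filter Topology Set
open scoped InnerProductSpace ENNReal

namespace Pool.Agent.Helper1.SPX.T1

open Pool.Agent.Helper64.SPX Pool.Agent.Helper1.SPX

variable {ι κ : Type} [Fintype ι] [Fintype κ]

lemma bounded_prodSet {A : Set (E ι)} {B : Set (E κ)} (hA : Bornology.IsBounded A)
    (hB : Bornology.IsBounded B) : Bornology.IsBounded (prodSet A B) := by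
  obtain ⟨r, hr⟩ := hA.subset_closedBall (0 : E ι)
  obtain ⟨r', hr'⟩ := hB.subset_closedBall (0 : E κ)
  refine (Metric.isBounded_closedBall (x := (0 : E (ι ⊕ κ))) (r := r + r')).subset fun z hz => ?_
  have h1 := hr hz.1
  have h2 := hr' hz.2
  rw [mem_closedBall_zero_iff] at h1 h2 ⊢
  exact (norm_le_split z).trans (add_le_add h1 h2)

lemma measurable_prodSet {A : Set (E ι)} {B : Set (E κ)} (hA : MeasurableSet A)
    (hB : MeasurableSet B) : MeasurableSet (prodSet A B) :=
  (measurable_fst hA).inter (measurable_snd hB)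

lemma continuous_P (S : Finset (E ι)) : Continuous (P S) := by
  unfold P
  refine continuous_finset_sum _ fun a _ => ?_
  exact continuous_ee.comp (continuous_const.inner continuous_id)

lemma integrableOn_ee {Ω : Set (E ι)} (hΩf : volume Ω < ⊤) (c : E ι) :
    IntegrableOn (fun x => ee ⟪c, x⟫_ℝ) Ω := by
  refine Measure.integrableOn_of_bounded (M := 1) hΩf.ne ?_ ?_
  · exact (continuous_ee.comp (continuous_const.inner continuous_id)).aestronglyMeasurable
  · exact Eventually.of_forall fun x => (norm_ee _).le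

lemma norm_sq_P (S : Finset (E ι)) (z ω : E ι) : ((‖P S (z - ω)‖ ^ 2 : ℝ) : ℂ) =
    ∑ a ∈ S, ∑ b ∈ S, ee ⟪a - b, z⟫_ℝ * ee ⟪b - a, ω⟫_ℝ := by
  have h1 : ((‖P S (z - ω)‖ ^ 2 : ℝ) : ℂ) = P S (z - ω) * (starRingEnd ℂ) (P S (z - ω)) := by
    rw [Complex.mul_conj, Complex.normSq_eq_norm_sq]
  rw [h1]
  unfold P
  rw [map_sum, Finset.sum_mul_sum]
  refine Finset.sum_congr rfl fun a _ => Finset.sum_congr rfl fun b _ => ?_
  rw [← ee_neg, ← ee_add, ← ee_add]
  congr 1
  simp only [inner_sub_left, inner_sub_right]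
  ring

lemma key {Ω Λ : Set (E ι)} (hΩf : volume Ω < ⊤)
    (ho : ∀ a ∈ Λ, ∀ b ∈ Λ, a ≠ b → ∫ x in Ω, ee (⟪a - b, x⟫_ℝ) = 0) (S : Finset (E ι))
    (hS : (S : Set (E ι)) ⊆ Λ) (z : E ι) :
    ∫⁻ ω in Ω, ENNReal.ofReal (‖P S (z - ω)‖ ^ 2) = volume Ω * S.card := by
  have hcont : Continuous fun ω => ‖P S (z - ω)‖ ^ 2 :=
    (((continuous_P S).comp (continuous_const.sub continuous_id)).norm).pow 2
  have hb : ∀ t, ‖P S t‖ ≤ S.card := by
    intro t
    unfold P
    refine (norm_sum_le _ _).trans ?_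
    simp [norm_ee]
  have hint : Integrable (fun ω => ‖P S (z - ω)‖ ^ 2) (volume.restrict Ω) := by
    refine Measure.integrableOn_of_bounded (M := (S.card : ℝ) ^ 2) hΩf.ne
      hcont.aestronglyMeasurable ?_
    refine Eventually.of_forall fun ω => ?_
    rw [Real.norm_of_nonneg (by positivity)]
    exact pow_le_pow_left₀ (norm_nonneg _) (hb _) 2
  rw [← ofReal_integral_eq_lintegral_ofReal hint (Eventually.of_forall fun ω => by positivity)]
  have h1 : ((∫ ω in Ω, ‖P S (z - ω)‖ ^ 2 : ℝ) : ℂ) = ((volume Ω).toReal * S.card : ℝ) := by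
    rw [← integral_complex_ofReal]
    simp only [norm_sq_P]
    rw [integral_finset_sum _ fun a _ => integrable_finset_sum _ fun b _ =>
      (integrableOn_ee hΩf _).const_mul _]
    have h2 : ∀ a ∈ S, ∫ ω in Ω, ∑ b ∈ S, ee ⟪a - b, z⟫_ℝ * ee ⟪b - a, ω⟫_ℝ =
        ((volume Ω).toReal : ℂ) := by
      intro a ha
      rw [integral_finset_sum _ fun b _ => (integrableOn_ee hΩf _).const_mul _]
      rw [Finset.sum_eq_single a]
      · rw [integral_const_mul]
        simp only [sub_self, inner_zero_left, ee_zero, one_mul]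
        simp [Measure.real]
      · intro b hb' hba
        rw [integral_const_mul, ho b (hS hb') a (hS ha) hba, mul_zero]
      · intro h
        exact absurd ha h
    rw [Finset.sum_congr rfl h2, Finset.sum_const, nsmul_eq_mul]
    push_cast
    ring
  have h2 : ∫ ω in Ω, ‖P S (z - ω)‖ ^ 2 = (volume Ω).toReal * S.card := by
    exact_mod_cast h1
  rw [h2, ENNReal.ofReal_mul ENNReal.toReal_nonneg, ENNReal.ofReal_toReal hΩf.ne,
    ENNReal.ofReal_natCast]

lemma wt_eq {B : Set (E κ)} (hB : MeasurableSet B) (hBf : volume B ≠ ⊤) (hB0 : 0 < volume B)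
    (s : E κ) : ENNReal.ofReal (wt B s) =
      (volume B)⁻¹ * ∫⁻ y, B.indicator (fun _ => (1 : ℝ≥0∞)) y *
        B.indicator (fun _ => (1 : ℝ≥0∞)) (y - s) := by
  have hm : MeasurableSet (B ∩ {y | y - s ∈ B}) :=
    hB.inter ((measurable_id.sub_const s) hB)
  have h1 : ∀ y, B.indicator (fun _ => (1 : ℝ≥0∞)) y * B.indicator (fun _ => (1 : ℝ≥0∞)) (y - s) =
      (B ∩ {y | y - s ∈ B}).indicator (fun _ => (1 : ℝ≥0∞)) y := by
    intro y
    by_cases h1 : y ∈ B <;> by_cases h2 : y - s ∈ B <;> simp [h1, h2]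
  simp only [h1]
  rw [lintegral_indicator hm, lintegral_const, Measure.restrict_apply_univ, one_mul]
  have hf : volume (B ∩ {y | y - s ∈ B}) ≠ ⊤ :=
    ((measure_mono inter_subset_left).trans_lt hBf.lt_top).ne
  unfold wt
  rw [ENNReal.ofReal_div_of_pos (ENNReal.toReal_pos hB0.ne' hBf), ENNReal.ofReal_toReal hf,
    ENNReal.ofReal_toReal hBf, ENNReal.div_eq_inv_mul]

theorem main : S_T1 := by
  intro ι κ _ _ A B Λ hA hB hBb hB0 hsp S hS x
  have hBf : volume B ≠ ⊤ := hBb.measure_lt_top.ne
  have hΩm : MeasurableSet (prodSet A B) := measurable_prodSet hA.measurableSet hB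
  have hΩf : volume (prodSet A B) < ⊤ := (bounded_prodSet hA.isBounded hBb).measure_lt_top
  set iA : E ι → ℝ≥0∞ := A.indicator fun _ => 1 with hiA
  set iB : E κ → ℝ≥0∞ := B.indicator fun _ => 1 with hiB
  have hiAm : Measurable iA := measurable_const.indicator hA.measurableSet
  have hiBm : Measurable iB := measurable_const.indicator hB
  set p : E (ι ⊕ κ) → ℝ≥0∞ := fun τ => ENNReal.ofReal (‖P S τ‖ ^ 2) with hp
  have hpm : Measurable p :=
    ENNReal.measurable_ofReal.comp (((continuous_P S).norm.pow 2).measurable)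
  have hset : MeasurableSet {τ : E (ι ⊕ κ) | x - fst τ ∈ A} :=
    (measurable_fst.const_sub x) hA.measurableSet
  rw [← lintegral_indicator hset]
  have e1 : ∀ τ : E (ι ⊕ κ), {τ : E (ι ⊕ κ) | x - fst τ ∈ A}.indicator
      (fun τ => ENNReal.ofReal (wt B (snd τ) * ‖P S τ‖ ^ 2)) τ =
      (volume B)⁻¹ * ∫⁻ y, iB y * (iA (x - fst τ) * iB (y - snd τ) * p τ) := by
    intro τ
    have h0 : ∫⁻ y, iB y * (iA (x - fst τ) * iB (y - snd τ) * p τ) =
        (iA (x - fst τ) * p τ) * ∫⁻ y, iB y * iB (y - snd τ) := by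
      have hm : Measurable fun y : E κ => iB y * iB (y - snd τ) :=
        hiBm.mul (hiBm.comp (measurable_id.sub_const _))
      rw [← lintegral_const_mul _ hm]
      congr 1
      funext y
      ring
    rw [h0]
    have hw0 : 0 ≤ wt B (snd τ) := by unfold wt; positivity
    by_cases h : x - fst τ ∈ A
    · rw [Set.indicator_of_mem (show τ ∈ {τ : E (ι ⊕ κ) | x - fst τ ∈ A} from h),
        ENNReal.ofReal_mul hw0, wt_eq hB hBf hB0]
      simp only [hiA, Set.indicator_of_mem h, one_mul, hp]
      ring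
    · rw [Set.indicator_of_notMem (show τ ∉ {τ : E (ι ⊕ κ) | x - fst τ ∈ A} from h)]
      simp only [hiA, Set.indicator_of_notMem h, zero_mul, mul_zero]
  simp only [e1]
  have hFm : Measurable fun q : E (ι ⊕ κ) × E κ =>
      iB q.2 * (iA (x - fst q.1) * iB (q.2 - snd q.1) * p q.1) := by
    refine (hiBm.comp _root_.measurable_snd).mul (((hiAm.comp ?_).mul (hiBm.comp ?_)).mul
      (hpm.comp _root_.measurable_fst))
    · exact (measurable_fst.comp _root_.measurable_fst).const_sub x
    · exact _root_.measurable_snd.sub (measurable_snd.comp _root_.measurable_fst)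
  rw [lintegral_const_mul _ hFm.lintegral_prod_right']
  rw [lintegral_lintegral_swap hFm.aemeasurable]
  have e2 : ∀ y : E κ, ∫⁻ τ : E (ι ⊕ κ), iB y * (iA (x - fst τ) * iB (y - snd τ) * p τ) =
      iB y * (volume (prodSet A B) * S.card) := by
    intro y
    have hm2 : Measurable fun τ : E (ι ⊕ κ) => iA (x - fst τ) * iB (y - snd τ) * p τ :=
      ((hiAm.comp (measurable_fst.const_sub x)).mul (hiBm.comp (measurable_snd.const_sub y))).mul hpm
    rw [lintegral_const_mul _ hm2]
    congr 1
    rw [← key hΩf hsp.1 S hS (pair x y), ← lintegral_indicator hΩm]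
    have h0 := lintegral_sub_left_eq_self (μ := (volume : Measure (E (ι ⊕ κ))))
      (fun ω => (prodSet A B).indicator
        (fun ω => ENNReal.ofReal (‖P S (pair x y - ω)‖ ^ 2)) ω) (pair x y)
    refine Eq.trans ?_ h0
    congr 1
    funext τ
    have h3 : pair x y - (pair x y - τ) = τ := by abel
    by_cases h1 : x - fst τ ∈ A
    · by_cases h2 : y - snd τ ∈ B
      · have h4 : pair x y - τ ∈ prodSet A B := by
          refine ⟨?_, ?_⟩
          · rw [fst_sub, fst_pair]; exact h1
          · rw [snd_sub, snd_pair]; exact h2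
        rw [Set.indicator_of_mem h4, h3]
        simp only [hiA, hiB, Set.indicator_of_mem h1, Set.indicator_of_mem h2, one_mul, hp]
      · have h4 : pair x y - τ ∉ prodSet A B := by
          intro h
          apply h2
          have := h.2
          rwa [snd_sub, snd_pair] at this
        rw [Set.indicator_of_notMem h4]
        simp only [hiB, Set.indicator_of_notMem h2, mul_zero, zero_mul]
    · have h4 : pair x y - τ ∉ prodSet A B := by
        intro h
        apply h1
        have := h.1
        rwa [fst_sub, fst_pair] at this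
      rw [Set.indicator_of_notMem h4]
      simp only [hiA, Set.indicator_of_notMem h1, zero_mul]
  simp only [e2]
  rw [lintegral_mul_const _ hiBm]
  have h5 : ∫⁻ y, iB y = volume B := by
    simp only [hiB]
    rw [lintegral_indicator hB, lintegral_const, Measure.restrict_apply_univ, one_mul]
  rw [h5, ← mul_assoc, ENNReal.inv_mul_cancel hB0.ne' hBf, one_mul]

end Pool.Agent.Helper1.SPX.T1
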