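import Pool.Agent.Helper1.SPX.Base
import Mathlib.Analysis.Fourier.AddCircleMulti

/-! SPX, part TB: lattice tiles and the dual lattice. -/

set_option autoImplicit false
set_option linter.unusedSectionVars false

open MeasureTheory Filter Topology Set UnitAddTorus
open scoped InnerProductSpace ENNReal NNReal

namespace Pool.Agent.Helper1.SPX.TB

open Pool.Agent.Helper64.SPX Pool.Agent.Helper1.SPX

noncomputable local instance : MeasureSpace UnitAddCircle := ⟨AddCircle.haarAddCircle⟩

local instance : Measure.IsAddHaarMeasure (volume : Measure UnitAddCircle) :=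
  inferInstanceAs (Measure.IsAddHaarMeasure AddCircle.haarAddCircle)

local instance : IsProbabilityMeasure (volume : Measure UnitAddCircle) :=
  inferInstanceAs (IsProbabilityMeasure AddCircle.haarAddCircle)

variable {ι : Type} [Fintype ι]

/-- the cube -/
def cube (ι : Type) : Set (ι → ℝ) := {x | ∀ i, x i ∈ Ioc ((0 : ι → ℝ) i) ((0 : ι → ℝ) i + 1)}

/-- integer vectors as real vectors -/
def zc (c : ι → ℤ) : ι → ℝ := fun i => (c i : ℝ)

/-- classes modulo one -/
def md (t : ι → ℝ) : UnitAddTorus ι := fun i => (t i : UnitAddCircle)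

/-- the representative in the cube -/
noncomputable def rep (θ : UnitAddTorus ι) : ι → ℝ := fun i => (AddCircle.equivIoc 1 0 (θ i) : ℝ)

lemma measurable_rep : Measurable (rep : UnitAddTorus ι → ι → ℝ) :=
  measurable_pi_lambda _ fun i => measurable_subtype_coe.comp
    ((AddCircle.measurableEquivIoc 1 0).measurable.comp (measurable_pi_apply i))

lemma rep_md {t : ι → ℝ} (ht : t ∈ cube ι) : rep (md t) = t := by
  funext i
  have h := ht i
  simp only [Pi.zero_apply] at h
  exact AddCircle.equivIoc_coe_of_mem h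

lemma measurableSet_cube : MeasurableSet (cube ι) := by
  have : cube ι = ⋂ i, (fun x : ι → ℝ => x i) ⁻¹' Ioc ((0 : ι → ℝ) i) ((0 : ι → ℝ) i + 1) := by
    ext x; simp [cube]
  rw [this]
  exact MeasurableSet.iInter fun i => (measurable_pi_apply i) measurableSet_Ioc

lemma volume_cube : volume (cube ι) = 1 := by
  have : cube ι = Set.pi univ fun _ : ι => Ioc (0 : ℝ) 1 := by
    ext x; simp [cube, Set.mem_pi]
  rw [this, volume_pi, Measure.pi_pi]
  simp

/-- the finite set of translations -/
noncomputable def box (ι : Type) [Fintype ι] (M : ℕ) : Finset (ι → ℤ) := by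
  classical
  exact Fintype.piFinset fun _ => Finset.Icc (-(M + 1 : ℤ)) (M + 1)

lemma mem_box {M : ℕ} {c : ι → ℤ} : c ∈ box ι M ↔ ∀ i, -(M + 1 : ℤ) ≤ c i ∧ c i ≤ M + 1 := by
  classical
  simp [box, Fintype.mem_piFinset]

lemma box_of {M : ℕ} {t : ι → ℝ} (ht : t ∈ cube ι) {c : ι → ℤ}
    (hc : ∀ i, |(t - zc c) i| ≤ M) : c ∈ box ι M := by
  rw [mem_box]
  intro i
  have h1 := ht i
  simp only [Pi.zero_apply, zero_add] at h1
  have h2 := abs_le.1 (hc i)
  simp only [Pi.sub_apply, zc] at h2
  constructor
  · have : (-(M + 1 : ℤ) : ℝ) ≤ c i := by push_cast; linarith [h1.1, h2.2]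
    exact_mod_cast this
  · have : (c i : ℝ) ≤ M + 1 := by linarith [h1.2, h2.1]
    exact_mod_cast this

lemma sum_cube {M : ℕ} {s : ι → ℝ} (hs : ∀ i, |s i| ≤ M) :
    ∑ c ∈ box ι M, (cube ι).indicator (fun _ => (1 : ℂ)) (s + zc c) = 1 := by
  classical
  set c0 : ι → ℤ := fun i => 1 - ⌈s i⌉ with hc0
  have h0 : s + zc c0 ∈ cube ι := by
    intro i
    simp only [Pi.add_apply, zc, hc0, Pi.zero_apply, zero_add]
    push_cast
    have h1 := Int.ceil_lt_add_one (s i)
    have h2 := Int.le_ceil (s i)
    constructor <;> linarith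
  rw [Finset.sum_eq_single c0]
  · rw [Set.indicator_of_mem h0]
  · intro c _ hc
    refine Set.indicator_of_notMem ?_ _
    intro h
    apply hc
    funext i
    have h1 := h i
    simp only [Pi.add_apply, zc, Pi.zero_apply, zero_add] at h1
    have h2 : ⌈s i⌉ = 1 - c i := by
      rw [Int.ceil_eq_iff]
      push_cast
      constructor <;> linarith [h1.1, h1.2]
    simp only [hc0, h2]
    ring
  · intro h
    exfalso
    apply h
    refine box_of h0 fun i => ?_
    simpa using hs i

lemma unfold_int {A : Set (ι → ℝ)} {M : ℕ} (hA : ∀ t ∈ A, ∀ i, |t i| ≤ M) {G : (ι → ℝ) → ℂ}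
    (hG : Integrable G) (hs : ∀ t, t ∉ A → G t = 0) :
    ∫ t in cube ι, ∑ c ∈ box ι M, G (t - zc c) = ∫ t, G t := by
  rw [integral_finsetSum _ fun c _ => (hG.comp_sub_right (zc c)).integrableOn]
  have h1 : ∀ c : ι → ℤ, ∫ t in cube ι, G (t - zc c) =
      ∫ t, (cube ι).indicator (fun _ => (1 : ℂ)) (t + zc c) * G t := by
    intro c
    rw [← integral_indicator measurableSet_cube]
    have h2 := integral_sub_right_eq_self (μ := (volume : Measure (ι → ℝ)))
      (fun t => (cube ι).indicator (fun _ => (1 : ℂ)) (t + zc c) * G t) (zc c)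
    rw [← h2]
    congr 1
    funext t
    by_cases h : t ∈ cube ι
    · simp [Set.indicator_of_mem h]
    · simp [Set.indicator_of_notMem h]
  simp only [h1]
  rw [← integral_finsetSum]
  · congr 1
    funext t
    rw [← Finset.sum_mul]
    by_cases h : t ∈ A
    · rw [sum_cube (hA t h), one_mul]
    · rw [hs t h, mul_zero]
  · intro c _
    refine hG.bdd_mul (c := 1) ?_ ?_
    · exact ((measurable_const.indicator measurableSet_cube).comp
        (measurable_id.add_const _)).aestronglyMeasurable
    · refine Eventually.of_forall fun t => ?_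
      refine (norm_indicator_le_norm_self _ _).trans ?_
      simp

lemma mF_md (n : ι → ℤ) (t : ι → ℝ) : mFourier (-n) (md t) = ee (-∑ i, t i * (n i : ℝ)) := by
  have h1 : mFourier (-n) (md t) = ∏ i, Complex.exp (-(2 * Real.pi * (t i * n i) * Complex.I)) := by
    simp only [mFourier, ContinuousMap.coe_mk]
    refine Finset.prod_congr rfl fun i _ => ?_
    rw [md, fourier_coe_apply]
    congr 1
    simp only [Pi.neg_apply]
    push_cast
    ring
  rw [h1, ← Complex.exp_sum]
  unfold ee
  congr 1
  push_cast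
  rw [Finset.sum_neg_distrib]
  simp only [mul_neg, neg_mul, Finset.mul_sum, Finset.sum_mul]

lemma mF_shift (n c : ι → ℤ) (t : ι → ℝ) :
    mFourier (-n) (md (t - zc c)) = mFourier (-n) (md t) := by
  congr 1
  funext i
  simp only [md, Pi.sub_apply, zc]
  have h : ((c i : ℝ) : UnitAddCircle) = 0 := by
    rw [AddCircle.coe_eq_zero_iff]
    exact ⟨c i, by simp⟩
  rw [AddCircle.coe_sub, h, sub_zero]

/-- the core: tiles of `ℤ^ι` -/
lemma core {A : Set (ι → ℝ)} (hAm : MeasurableSet A) {M : ℕ} (hA : ∀ t ∈ A, ∀ i, |t i| ≤ M)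
    (ht : ∀ᵐ t : ι → ℝ, ∃! c : ι → ℤ, t - zc c ∈ A) (w : ι → ℝ) :
    (volume A).toReal = 1 ∧
    HasSum (fun n : ι → ℤ => ‖∫ t, A.indicator (fun t => ee (-∑ i, t i * (w i - n i))) t‖ ^ 2) 1 := by
  classical
  have hAf : volume A < ⊤ := by
    have : A ⊆ Metric.closedBall (0 : ι → ℝ) M := by
      intro t h
      rw [mem_closedBall_zero_iff, pi_norm_le_iff_of_nonneg (by positivity)]
      intro i
      rw [Real.norm_eq_abs]
      exact hA t h i
    exact (measure_mono this).trans_lt measure_closedBall_lt_top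
  have htc : ∀ᵐ t ∂(volume.restrict (cube ι)), ∃! c : ι → ℤ, t - zc c ∈ A :=
    ae_restrict_of_ae ht
  -- a general function
  have hsum : ∀ g : (ι → ℝ) → ℂ, (∀ t, t ∉ A → g t = 0) →
      ∀ᵐ t ∂(volume.restrict (cube ι)), ∃ s ∈ A, ∑ c ∈ box ι M, g (t - zc c) = g s := by
    intro g hg
    filter_upwards [htc, ae_restrict_mem measurableSet_cube] with t h1 h2
    obtain ⟨c, hc, hu⟩ := h1
    refine ⟨t - zc c, hc, ?_⟩
    rw [Finset.sum_eq_single c]
    · intro c' _ hne
      exact hg _ fun h => hne (hu c' h)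
    · intro h
      exact absurd (box_of h2 (hA _ hc)) h
  constructor
  · have h1 := unfold_int hA (G := A.indicator fun _ => (1 : ℂ))
      ((integrable_const_iff (μ := volume.restrict A) (c := (1 : ℂ))).2
        (Or.inr ⟨by simpa using hAf⟩) |>.indicator hAm |> fun _ =>
        (integrable_indicator_iff hAm).2 (integrableOn_const hAf.ne (by simp)))
      (fun t h => Set.indicator_of_notMem h _)
    have h2 := hsum (A.indicator fun _ => (1 : ℂ)) (fun t h => Set.indicator_of_notMem h _)
    have h3 : ∫ t in cube ι, ∑ c ∈ box ι M, A.indicator (fun _ => (1 : ℂ)) (t - zc c) =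
        ∫ t in cube ι, (1 : ℂ) := by
      refine integral_congr_ae ?_
      filter_upwards [h2] with t h
      obtain ⟨s, hs, h⟩ := h
      rw [h, Set.indicator_of_mem hs]
    rw [h3, integral_indicator hAm] at h1
    simp [Measure.real, volume_cube] at h1
    exact_mod_cast h1.symm
  · set g : (ι → ℝ) → ℂ := A.indicator fun t => ee (-∑ i, t i * w i) with hg
    have hgm : Measurable g := by
      refine Measurable.indicator ?_ hAm
      refine continuous_ee.measurable.comp ?_
      fun_prop
    have hg0 : ∀ t, t ∉ A → g t = 0 := fun t h => Set.indicator_of_notMem h _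
    have hg1 : ∀ t, t ∈ A → ‖g t‖ = 1 := fun t h => by
      rw [hg, Set.indicator_of_mem h, norm_ee]
    have hgb : ∀ t, ‖g t‖ ≤ 1 := by
      intro t
      by_cases h : t ∈ A
      · exact (hg1 t h).le
      · rw [hg0 t h]; simp
    set p : UnitAddTorus ι → ℂ := fun θ => ∑ c ∈ box ι M, g (rep θ - zc c) with hp
    have hpm : Measurable p := by
      refine Finset.measurable_sum _ fun c _ => ?_
      exact hgm.comp (measurable_rep.sub_const _)
    have hpb : ∀ θ, ‖p θ‖ ≤ (box ι M).card := by
      intro θ
      refine (norm_sum_le _ _).trans ?_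
      refine (Finset.sum_le_card_nsmul _ _ 1 fun c _ => hgb _).trans ?_
      simp
    have hpL : MemLp p 2 (volume : Measure (UnitAddTorus ι)) :=
      MemLp.of_bound hpm.aestronglyMeasurable _ (Eventually.of_forall hpb)
    have hco : ∀ n, mFourierCoeff (hpL.toLp p) n =
        ∫ t, A.indicator (fun t => ee (-∑ i, t i * (w i + n i))) t := by
      intro n
      have h1 : mFourierCoeff (hpL.toLp p) n = mFourierCoeff p n := by
        unfold mFourierCoeff
        refine integral_congr_ae ?_
        filter_upwards [hpL.coeFn_toLp] with t h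
        rw [h]
      rw [h1, mFourierCoeff_eq_integral _ _ (0 : ι → ℝ)]
      have h2 : ∀ t, A.indicator (fun t => ee (-∑ i, t i * (w i + n i))) t =
          mFourier (-n) (md t) * g t := by
        intro t
        rw [mF_md, hg]
        by_cases h : t ∈ A
        · rw [Set.indicator_of_mem h, Set.indicator_of_mem h, ← ee_add]
          congr 1
          rw [← neg_add, ← Finset.sum_add_distrib]
          congr 1
          refine Finset.sum_congr rfl fun i _ => ?_
          ring
        · rw [Set.indicator_of_notMem h, Set.indicator_of_notMem h, mul_zero]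
      simp only [h2]
      have hint : Integrable fun t => mFourier (-n) (md t) * g t := by
        have : (fun t => mFourier (-n) (md t) * g t) =
            A.indicator (fun t => ee (-∑ i, t i * (w i + n i))) := by
          funext t; exact (h2 t).symm
        rw [this, integrable_indicator_iff hAm]
        refine Measure.integrableOn_of_bounded (M := 1) hAf.ne ?_ ?_
        · refine (continuous_ee.comp ?_).aestronglyMeasurable
          fun_prop
        · exact Eventually.of_forall fun x => (norm_ee _).le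
      rw [← unfold_int hA hint (fun t h => by rw [hg0 t h, mul_zero])]
      refine setIntegral_congr_fun measurableSet_cube ?_
      intro t ht'
      simp only [smul_eq_mul]
      change mFourier (-n) (md t) * p (md t) = _
      simp only [hp]
      rw [rep_md ht', Finset.mul_sum]
      refine Finset.sum_congr rfl fun c _ => ?_
      rw [mF_shift]
    have hpars := hasSum_sq_mFourierCoeff (hpL.toLp p)
    have hone : ∫ t, ‖(hpL.toLp p) t‖ ^ 2 = 1 := by
      have h1 : ∫ t, ‖(hpL.toLp p) t‖ ^ 2 = ∫ t, ‖p t‖ ^ 2 := by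
        refine integral_congr_ae ?_
        filter_upwards [hpL.coeFn_toLp] with t h
        rw [h]
      rw [h1, integral_preimage _ (0 : ι → ℝ)]
      have h2 : ∫ t in cube ι, ‖p (md t)‖ ^ 2 = ∫ t in cube ι, (1 : ℝ) := by
        refine integral_congr_ae ?_
        filter_upwards [hsum g hg0, ae_restrict_mem measurableSet_cube] with t h hc
        obtain ⟨s, hs, h⟩ := h
        simp only [hp]
        rw [rep_md hc, h, hg1 s hs, one_pow]
      refine Eq.trans h2 ?_
      simp [Measure.real, volume_cube]
    rw [hone] at hpars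
    simp only [hco] at hpars
    have h3 := (Equiv.neg (ι → ℤ)).hasSum_iff.2 hpars
    refine h3.congr_fun ?_ |> fun h => h
    intro n
    simp only [Function.comp_apply, Equiv.neg_apply, Pi.neg_apply]
    push_cast
    simp only [sub_eq_add_neg]

theorem main : S_TB := by
  intro ι _ b v A hd ho hAc ht x
  classical
  -- the linear change of variables
  set T : (ι → ℝ) ≃L[ℝ] E ι := b.equivFunL.symm with hT
  have hTs : ∀ t : ι → ℝ, T t = ∑ i, t i • b i := by
    intro t
    exact Module.Basis.equivFun_symm_apply b t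
  obtain ⟨c, hc⟩ : ∃ c : ℝ≥0, (volume : Measure (ι → ℝ)).map T = c • (volume : Measure (E ι)) :=
    ⟨_, Measure.isAddLeftInvariant_eq_smul _ _⟩
  have hTm : MeasurableEmbedding T := T.toHomeomorph.measurableEmbedding
  set A' : Set (ι → ℝ) := T ⁻¹' A with hA'
  have hA'm : MeasurableSet A' := hTm.measurable hAc.measurableSet
  have hA'b : IsCompact A' := by
    have : A' = T.symm '' A := by
      ext t
      constructor
      · intro h
        exact ⟨T t, h, by simp⟩
      · rintro ⟨y, hy, rfl⟩
        simpa [hA'] using hy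
    rw [this]
    exact hAc.image T.symm.continuous
  obtain ⟨r, hr⟩ := hA'b.isBounded.subset_closedBall (0 : ι → ℝ)
  obtain ⟨M, hM⟩ := exists_nat_ge r
  have hAM : ∀ t ∈ A', ∀ i, |t i| ≤ M := by
    intro t h i
    have h1 := hr h
    rw [mem_closedBall_zero_iff] at h1
    have h2 := norm_le_pi_norm t i
    rw [Real.norm_eq_abs] at h2
    linarith
  have ht' : ∀ᵐ t : ι → ℝ, ∃! n : ι → ℤ, t - zc n ∈ A' := by
    have h1 : ∀ᵐ y ∂((volume : Measure (ι → ℝ)).map T),
        ∃! n : ι → ℤ, y - ∑ i, (n i : ℝ) • b i ∈ A := by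
      rw [hc]
      exact Measure.ae_smul_measure ht c
    have h2 := ae_of_ae_map hTm.measurable.aemeasurable h1
    filter_upwards [h2] with t h
    have h3 : ∀ n : ι → ℤ, (t - zc n ∈ A' ↔ T t - ∑ i, (n i : ℝ) • b i ∈ A) := by
      intro n
      rw [hA', Set.mem_preimage, map_sub, hTs (zc n)]
      rfl
    simpa only [h3] using h
  obtain ⟨hvol, hsum⟩ := core hA'm hAM ht' (fun i => ⟪x, b i⟫_ℝ)
  -- integrals
  have hint : ∀ F : E ι → ℂ, ∫ t, F (T t) = (c : ℝ) • ∫ y, F y := by
    intro F
    rw [← hTm.integral_map F, hc, integral_smul_nnreal_measure]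
    rfl
  have hvol2 : (c : ℝ) * (volume A).toReal = 1 := by
    rw [← hvol]
    have h1 : volume A' = ((volume : Measure (ι → ℝ)).map T) A := by
      rw [hTm.map_apply]
    rw [h1, hc]
    have h2 : (c • (volume : Measure (E ι))) A = (c : ℝ≥0∞) * volume A := rfl
    rw [h2, ENNReal.toReal_mul, ENNReal.coe_toReal]
  have hft : ∀ n : ι → ℤ, ft (ind A) (x - ∑ i, (n i : ℝ) • v i) = ((volume A).toReal : ℂ) *
      ∫ t, A'.indicator (fun t => ee (-∑ i, t i * (⟪x, b i⟫_ℝ - n i))) t := by
    intro n
    have h1 : ∀ t, A'.indicator (fun t => ee (-∑ i, t i * (⟪x, b i⟫_ℝ - n i))) t =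
        (fun y => ind A y * ee (-⟪x - ∑ i, (n i : ℝ) • v i, y⟫_ℝ)) (T t) := by
      intro t
      have h2 : ⟪x - ∑ i, (n i : ℝ) • v i, T t⟫_ℝ = ∑ i, t i * (⟪x, b i⟫_ℝ - n i) := by
        rw [hTs, inner_sum]
        refine Finset.sum_congr rfl fun i _ => ?_
        rw [real_inner_smul_right, inner_sub_left, sum_inner]
        congr 2
        rw [Finset.sum_eq_single i]
        · rw [real_inner_smul_left, hd i, mul_one]
        · intro j _ hj
          rw [real_inner_smul_left, ho j i hj, mul_zero]
        · intro h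
          exact absurd (Finset.mem_univ i) h
      simp only [h2]
      by_cases h : t ∈ A'
      · rw [Set.indicator_of_mem h]
        have : T t ∈ A := h
        unfold ind
        rw [Set.indicator_of_mem this, one_mul]
      · rw [Set.indicator_of_notMem h]
        have : T t ∉ A := h
        unfold ind
        rw [Set.indicator_of_notMem this, zero_mul]
    rw [integral_congr_ae (Eventually.of_forall h1)]
    rw [hint (fun y => ind A y * ee (-⟪x - ∑ i, (n i : ℝ) • v i, y⟫_ℝ))]
    unfold ft
    rw [Complex.real_smul, ← mul_assoc]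
    have h3 : (((volume A).toReal : ℝ) : ℂ) * ((c : ℝ) : ℂ) = 1 := by
      rw [← Complex.ofReal_mul, mul_comm, hvol2, Complex.ofReal_one]
    rw [h3, one_mul]
  have hfun : (fun n : ι → ℤ => ‖ft (ind A) (x - ∑ i, (n i : ℝ) • v i)‖ ^ 2) =
      fun n : ι → ℤ => (volume A).toReal ^ 2 *
        ‖∫ t, A'.indicator (fun t => ee (-∑ i, t i * (⟪x, b i⟫_ℝ - n i))) t‖ ^ 2 := by
    funext n
    rw [hft n, norm_mul, mul_pow, Complex.norm_real, Real.norm_of_nonneg ENNReal.toReal_nonneg]
  rw [hfun]
  have h4 := hsum.mul_left ((volume A).toReal ^ 2)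
  rw [mul_one] at h4
  exact h4

end Pool.Agent.Helper1.SPX.TB
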